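import Mathlib
import Pool.Agent.Q102.FiveInv

/-!
MP_9405a7_co, Q1 (disproof): in `K_5` the five edges of a 5-cycle, and in `K_{3,3}` the edges of a
4-cycle together with the edge disjoint from it, do not split, but their five-invariants are
linearly factorable.
-/

namespace Pool.Agent.Results.MP_9405a7_co.LinearButNotSplit

open MvPolynomial Pool.Agent.Q102.DetTerms Pool.Agent.Q102.FiveInv

theorem five33 : fiveInv K33 e33 =
    ((∏ i ∈ ({2, 6, 7} : Finset (Fin 9)), X i) + (∏ i ∈ ({5, 6, 7} : Finset (Fin 9)), X i) -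
    (∏ i ∈ ({2, 5, 6} : Finset (Fin 9)), X i) - (∏ i ∈ ({2, 5, 7} : Finset (Fin 9)), X i) :
      MvPolynomial (Fin 9) ℤ) := by
  unfold fiveInv
  rw [dodgson_eq _ _ _ _ l33.1.1, dodgson_eq _ _ _ _ l33.1.2, dodgson_eq _ _ _ _ l33.2.1,
    dodgson_eq _ _ _ _ l33.2.2, d33_0, d33_1, d33_2, d33_3]
  have x2 : xv K33 2 = X (2 : Fin 9) := rfl
  have x5 : xv K33 5 = X (5 : Fin 9) := rfl
  have x6 : xv K33 6 = X (6 : Fin 9) := rfl
  have x7 : xv K33 7 = X (7 : Fin 9) := rfl
  simp only [ev, x2, x5, x6, x7, List.map_cons, List.map_nil, List.sum_cons, List.sum_nil,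
    List.prod_cons, List.prod_nil, Int.cast_one]
  rw [Finset.prod_insert (by decide), Finset.prod_insert (by decide), Finset.prod_singleton,
    Finset.prod_insert (by decide), Finset.prod_insert (by decide), Finset.prod_singleton,
    Finset.prod_insert (by decide), Finset.prod_insert (by decide), Finset.prod_singleton,
    Finset.prod_insert (by decide), Finset.prod_insert (by decide), Finset.prod_singleton]
  generalize (X (2 : Fin 9) : MvPolynomial (Fin 9) ℤ) = a
  generalize (X (5 : Fin 9) : MvPolynomial (Fin 9) ℤ) = b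
  generalize (X (6 : Fin 9) : MvPolynomial (Fin 9) ℤ) = c
  generalize (X (7 : Fin 9) : MvPolynomial (Fin 9) ℤ) = d
  change ((1 : MvPolynomial (Fin 9) ℤ) * (c * (d * 1)) + 0) * (1 * (a * 1) + (1 * (b * 1) + 0)) -
    (1 * (a * (b * 1)) + 0) * (1 * (c * 1) + (1 * (d * 1) + 0)) = _
  ring

/-- the polynomial `Q = α₂α₃ + α₂α₆ + α₃α₇ + α₅α₆ + α₅α₇` -/
noncomputable def Q : MvPolynomial (Fin 10) ℤ :=
  (∏ i ∈ ({2, 3} : Finset (Fin 10)), X i) + (∏ i ∈ ({2, 6} : Finset (Fin 10)), X i) +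
    (∏ i ∈ ({3, 7} : Finset (Fin 10)), X i) + (∏ i ∈ ({5, 6} : Finset (Fin 10)), X i) +
    (∏ i ∈ ({5, 7} : Finset (Fin 10)), X i)

theorem five5 : fiveInv K5 e5 =
    (-(X 2 * X 3 * X 5 * X 6 * X 7 * Q) : MvPolynomial (Fin 10) ℤ) := by
  unfold fiveInv Q
  rw [dodgson_eq _ _ _ _ l5.1.1, dodgson_eq _ _ _ _ l5.1.2, dodgson_eq _ _ _ _ l5.2.1,
    dodgson_eq _ _ _ _ l5.2.2, d5_0, d5_1, d5_2, d5_3]
  have x2 : xv K5 2 = X (2 : Fin 10) := rfl
  have x3 : xv K5 3 = X (3 : Fin 10) := rfl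
  have x5 : xv K5 5 = X (5 : Fin 10) := rfl
  have x6 : xv K5 6 = X (6 : Fin 10) := rfl
  have x7 : xv K5 7 = X (7 : Fin 10) := rfl
  simp only [ev, x2, x3, x5, x6, x7, List.map_cons, List.map_nil, List.sum_cons, List.sum_nil,
    List.prod_cons, List.prod_nil, Int.cast_one, Int.cast_neg]
  rw [Finset.prod_insert (by decide), Finset.prod_singleton,
    Finset.prod_insert (by decide), Finset.prod_singleton,
    Finset.prod_insert (by decide), Finset.prod_singleton,
    Finset.prod_insert (by decide), Finset.prod_singleton,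
    Finset.prod_insert (by decide), Finset.prod_singleton]
  generalize (X (2 : Fin 10) : MvPolynomial (Fin 10) ℤ) = a
  generalize (X (3 : Fin 10) : MvPolynomial (Fin 10) ℤ) = b
  generalize (X (5 : Fin 10) : MvPolynomial (Fin 10) ℤ) = c
  generalize (X (6 : Fin 10) : MvPolynomial (Fin 10) ℤ) = d
  generalize (X (7 : Fin 10) : MvPolynomial (Fin 10) ℤ) = f
  change ((-1 : MvPolynomial (Fin 10) ℤ) * (a * (b * (c * (f * 1)))) +
        (-1 * (a * (c * (d * (f * 1)))) + 0)) *
      (1 * (a * (b * (d * 1))) + (1 * (b * (d * (f * 1))) + (-1 * (b * (d * (f * 1))) +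
        (-1 * (c * (d * (f * 1))) + (1 * (c * (d * (f * 1))) + 0))))) -
    (-1 * (b * (c * (d * (f * 1)))) + 0) *
      (-1 * (a * (b * (f * 1))) + (1 * (a * (d * (f * 1))) + (-1 * (a * (d * (f * 1))) +
        (-1 * (a * (c * (d * 1))) + (-1 * (a * (c * (f * 1))) + (-1 * (c * (d * (f * 1))) +
        (1 * (c * (d * (f * 1))) + 0))))))) = _
  ring

theorem Q_ne : Q ≠ 0 := by
  intro h
  have h2 := congrArg (eval fun i : Fin 10 => (1 : ℤ)) h
  rw [map_zero] at h2
  simp [Q] at h2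

/-- the five-invariant of `K_{3,3}` -/
noncomputable def P33 : MvPolynomial (Fin 9) ℤ :=
  (∏ i ∈ ({2, 6, 7} : Finset (Fin 9)), X i) + (∏ i ∈ ({5, 6, 7} : Finset (Fin 9)), X i) -
    (∏ i ∈ ({2, 5, 6} : Finset (Fin 9)), X i) - (∏ i ∈ ({2, 5, 7} : Finset (Fin 9)), X i)

/-- the five-invariant of `K_5` -/
noncomputable def P5 : MvPolynomial (Fin 10) ℤ := -(X 2 * X 3 * X 5 * X 6 * X 7 * Q)

theorem P33_eq : P33 = X 2 * X 6 * X 7 + X 5 * X 6 * X 7 - X 2 * X 5 * X 6 - X 2 * X 5 * X 7 := by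
  unfold P33
  rw [Finset.prod_insert (by decide), Finset.prod_insert (by decide), Finset.prod_singleton,
    Finset.prod_insert (by decide), Finset.prod_insert (by decide), Finset.prod_singleton,
    Finset.prod_insert (by decide), Finset.prod_insert (by decide), Finset.prod_singleton,
    Finset.prod_insert (by decide), Finset.prod_insert (by decide), Finset.prod_singleton]
  ring

theorem P5_eq : P5 = -(X 2 * X 3 * X 5 * X 6 * X 7 *
    (X 2 * X 3 + X 2 * X 6 + X 3 * X 7 + X 5 * X 6 + X 5 * X 7)) := by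
  unfold P5 Q
  rw [Finset.prod_insert (by decide), Finset.prod_singleton,
    Finset.prod_insert (by decide), Finset.prod_singleton,
    Finset.prod_insert (by decide), Finset.prod_singleton,
    Finset.prod_insert (by decide), Finset.prod_singleton,
    Finset.prod_insert (by decide), Finset.prod_singleton]

theorem P33_ne : P33 ≠ 0 := by
  intro h
  have h2 := congrArg (eval fun i : Fin 9 => if i = 2 then (0 : ℤ) else 1) h
  rw [map_zero, P33_eq] at h2
  simp at h2

theorem P5_ne : P5 ≠ 0 := by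
  unfold P5
  have hX : ∀ i : Fin 10, (X i : MvPolynomial (Fin 10) ℤ) ≠ 0 := fun i => X_ne_zero i
  exact neg_ne_zero.2 (mul_ne_zero (mul_ne_zero (mul_ne_zero (mul_ne_zero (mul_ne_zero (hX 2)
    (hX 3)) (hX 5)) (hX 6)) (hX 7)) Q_ne)

theorem Q_degree (e : Fin 10) : degreeOf e Q ≤ 1 := by
  unfold Q
  exact degreeOf_add_le' _ _ _ (degreeOf_add_le' _ _ _ (degreeOf_add_le' _ _ _
    (degreeOf_add_le' _ _ _ (degreeOf_monomials _ _) (degreeOf_monomials _ _))
    (degreeOf_monomials _ _)) (degreeOf_monomials _ _)) (degreeOf_monomials _ _)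

theorem linear33 (q : MvPolynomial (Fin 9) ℤ) (hq : q ∣ P33) (e : Fin 9) :
    degreeOf e q ≤ 1 := by
  refine (degreeOf_le_of_dvd hq P33_ne e).trans ?_
  exact degreeOf_sub_le' _ _ _ (degreeOf_sub_le' _ _ _
    (degreeOf_add_le' _ _ _ (degreeOf_monomials _ _) (degreeOf_monomials _ _))
    (degreeOf_monomials _ _)) (degreeOf_monomials _ _)

theorem linear5 (q : MvPolynomial (Fin 10) ℤ) (hq : Irreducible q) (hd : q ∣ P5) (e : Fin 10) :
    degreeOf e q ≤ 1 := by
  have hp : Prime q := hq.prime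
  have hX : ∀ i : Fin 10, q ∣ X i → degreeOf e q ≤ 1 := by
    intro i hi
    refine (degreeOf_le_of_dvd hi (X_ne_zero i) e).trans ?_
    have := degreeOf_monomials e ({i} : Finset (Fin 10))
    rwa [Finset.prod_singleton] at this
  rcases hp.dvd_or_dvd ((dvd_neg).1 hd) with h1 | h1
  · rcases hp.dvd_or_dvd h1 with h2 | h2
    · rcases hp.dvd_or_dvd h2 with h3 | h3
      · rcases hp.dvd_or_dvd h3 with h4 | h4
        · rcases hp.dvd_or_dvd h4 with h5 | h5
          · exact hX _ h5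
          · exact hX _ h5
        · exact hX _ h4
      · exact hX _ h3
    · exact hX _ h2
  · exact (degreeOf_le_of_dvd h1 Q_ne e).trans (Q_degree e)

/-- Q1 of MP_9405a7_co is false: the 5-cycle `e5` of `K_5`, and the 4-cycle together with the
disjoint edge `e33` of `K_{3,3}`, do not split, but their five-invariants are linearly
factorable. -/
theorem result :
    (¬ ∀ (G : Graph) (e : Fin 5 ↪ Fin G.ne),
      LinearlyFactorable (G := G) (fiveInv G e) ↔ Splits G e) ∧
    (¬ Splits K5 e5 ∧ fiveInv K5 e5 ≠ 0 ∧ LinearlyFactorable (G := K5) (fiveInv K5 e5) ∧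
      fiveInv K5 e5 = (-(X 2 * X 3 * X 5 * X 6 * X 7 *
        (X 2 * X 3 + X 2 * X 6 + X 3 * X 7 + X 5 * X 6 + X 5 * X 7)) :
          MvPolynomial (Fin 10) ℤ)) ∧
    (¬ Splits K33 e33 ∧ fiveInv K33 e33 ≠ 0 ∧ LinearlyFactorable (G := K33) (fiveInv K33 e33) ∧
      fiveInv K33 e33 = (X 2 * X 6 * X 7 + X 5 * X 6 * X 7 - X 2 * X 5 * X 6 - X 2 * X 5 * X 7 :
          MvPolynomial (Fin 9) ℤ)) := by
  have h5 := not_splits K5 e5 L5 covers5 ok5
  have h33 := not_splits K33 e33 L33 covers33 ok33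
  have f5 : fiveInv K5 e5 = P5 := five5
  have f33 : fiveInv K33 e33 = P33 := five33
  have l5' : LinearlyFactorable (G := K5) (fiveInv K5 e5) := by
    rw [f5]; exact fun q hq hd e => linear5 q hq hd e
  have l33' : LinearlyFactorable (G := K33) (fiveInv K33 e33) := by
    rw [f33]; exact fun q _ hd e => linear33 q hd e
  exact ⟨fun h => h5 ((h K5 e5).1 l5'), ⟨h5, fun h => P5_ne (f5.symm.trans h), l5',
    f5.trans P5_eq⟩, h33, fun h => P33_ne (f33.symm.trans h), l33', f33.trans P33_eq⟩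

end Pool.Agent.Results.MP_9405a7_co.LinearButNotSplit
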